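import Pool.Agent.H66.GUA.Targets

/-!
[RH] The phase of the geometric sum.
-/

set_option autoImplicit false

open Finset

namespace Pool.Agent.H83.GUA

open Pool.Agent.H31.DP
open Pool.Agent.H31.DPD
open Pool.Agent.H66.GUA

theorem pf_RH (hDS : T_DS) : T_RH := by
  intro d n q Q τ u c x t hq hv
  rw [(hDS n ∅ t (phs τ Q u c) x).2, rho, Finset.mul_sum]
  push_cast
  rw [Finset.sum_div]
  refine Finset.sum_congr rfl fun ω _ => ?_
  obtain ⟨hpos, hdvd⟩ := hv ω
  have hne : ((vx x t ω : ℤ) : ℝ) ≠ 0 := by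
    exact_mod_cast hpos.ne'
  have hc : (((Q : ℤ) / vx x t ω : ℤ) : ℝ) = (Q : ℝ) / (vx x t ω : ℝ) := by
    rw [Int.cast_div hdvd hne]
    simp
  unfold phs
  rw [hc]
  field_simp

end Pool.Agent.H83.GUA
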