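import Pool.Agent.H66.GUA.Targets

/-!
[EV] Long sides.
-/

set_option autoImplicit false

open Finset

namespace Pool.Agent.H83.GUA

open Pool.Agent.H31.DP
open Pool.Agent.H31.DPD
open Pool.Agent.H66.GUA

theorem IC_empty {d : ℕ} (M : ℕ) (s₀ : ℤ) (z : Fin d → ℤ) (i : Fin d) (hi : (M : ℤ) ≤ |z i|) :
    IC M (cns s₀ z) = ∅ := by
  rw [Finset.eq_empty_iff_forall_notMem]
  intro y hy
  rw [IC, Finset.mem_filter] at hy
  have h1 := hy.2 ∅
  have h2 := hy.2 {i.succ}
  rw [sI, Finset.sum_empty] at h1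
  rw [sI, Finset.sum_singleton] at h2
  have e : cns s₀ z i.succ = z i := by simp [cns]
  rw [e] at h2
  rcases abs_cases (z i) with h | h <;> omega

theorem pf_EV : T_EV := by
  intro d l h p Q M z hz
  obtain ⟨i, hi⟩ := hz
  constructor
  · intro φ
    unfold RZ
    refine Finset.sum_eq_zero fun s₀ _ => ?_
    rw [CAc, IC_empty M s₀ z i hi]
    simp
  · unfold TZ
    refine Finset.sum_eq_zero fun s₀ _ => ?_
    rw [TTc, IC_empty M s₀ z i hi]
    simp

end Pool.Agent.H83.GUA
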